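import Pool.Agent.Lib.NK89.Free

namespace Pool.Agent.Results.MP_99e35a_al.FreeTwo

/-- Over every field of characteristic zero the free group of rank two has a nontrivial
irreducible representation in which every group element acts as a unipotent operator. -/
theorem result (k : Type) [Field k] [CharZero k] :
    ∃ (V : Type) (_ : AddCommGroup V) (_ : Module k V)
      (ρ : Representation k (FreeGroup (Fin 2)) V),
      Nontrivial V ∧
      (∀ W : Submodule k V, (∀ g, ∀ v ∈ W, ρ g v ∈ W) → W = ⊥ ∨ W = ⊤) ∧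
      (∀ g, ∃ n : ℕ, 1 ≤ n ∧ ∀ v : V, ((ρ g - 1) ^ n) v = 0) ∧
      ∃ g, ∃ v : V, ρ g v ≠ v := by
  obtain ⟨V, _, _, ρ, h1, h2, h3, h4⟩ :=
    Pool.Agent.Lib.NK89.irr_of_nk k Pool.Agent.Lib.NK89.nk_free
  refine ⟨V, inferInstance, inferInstance, ρ, h1, h2, fun g => ?_, ?_⟩
  · obtain ⟨n, hn⟩ := h3 g
    refine ⟨n + 1, Nat.le_add_left 1 n, fun v => ?_⟩
    rw [pow_succ', hn, mul_zero, LinearMap.zero_apply]
  · by_contra hcon
    refine h4 (fun g => LinearMap.ext fun v => ?_)
    by_contra hv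
    exact hcon ⟨g, v, hv⟩

end Pool.Agent.Results.MP_99e35a_al.FreeTwo
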