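import Pool.Agent.Lib.NK89.Main

namespace Pool.Agent.Results.MP_99e35a_al.KolchinDichotomy

open Pool.Agent.Lib.NK89

/-- For every group `G` and fields `k`, `K` of characteristic zero: all irreducible unipotent
representations of `G` over `k` are trivial if and only if all unipotent representations of `G`
over `K` are locally nilpotent. -/
theorem result (G : Type) [Group G] (k K : Type) [Field k] [CharZero k] [Field K] [CharZero K] :
    (∀ (V : Type) [AddCommGroup V] [Module k V] (ρ : Representation k G V), Nontrivial V →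
      (∀ W : Submodule k V, (∀ g, ∀ v ∈ W, ρ g v ∈ W) → W = ⊥ ∨ W = ⊤) →
      (∀ g, IsNilpotent (ρ g - 1)) → ∀ g, ρ g = 1) ↔
    (∀ (V : Type) [AddCommGroup V] [Module K V] (ρ : Representation K G V),
      (∀ g, IsNilpotent (ρ g - 1)) → ∀ S : Finset G, ∃ n : ℕ, ∀ l : List G, l.length = n →
        (∀ g ∈ l, g ∈ S) → (l.map fun g => ρ g - 1).prod = 0) := by
  constructor
  · intro h V _ _ ρ hρ S
    by_contra hc
    push Not at hc
    obtain ⟨W, _, _, σ, h1, h2, h3, h4⟩ := irr_of_nk k (nk_of_rep ρ hρ S hc)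
    exact h4 (h W σ h1 h2 h3)
  · intro h V _ _ ρ h1 h2 h3
    by_contra hc
    obtain ⟨S, hS⟩ := not_nilp ρ h2 hc
    obtain ⟨W, _, _, σ, h4, T, hT⟩ := rep_of_nk K (nk_of_rep ρ h3 S hS)
    obtain ⟨n, hn⟩ := h W σ h4 T
    obtain ⟨l, a1, a2, a3⟩ := hT n
    exact a3 (hn l a1 a2)

end Pool.Agent.Results.MP_99e35a_al.KolchinDichotomy
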